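import Pool.Agent.KI.Main

/-!
# Kohn's conjecture in the smooth case: finite D'Angelo type implies finite ideal type

The definitions are in `Pool/Agent/KI/Defs.lean` (Kohn's ideals, both notions of type, the Levi
form) and `Pool/Agent/KI/SDef.lean` (`KI.SmoothDefining`: bounded open set with smooth boundary
together with a smooth defining function).
-/

namespace Pool.Agent.Results.MP_80f671_an.KohnType

open KI

/-- **Kohn's conjecture, smooth case.** Let `Ω ⊂⊂ ℂⁿ` be a bounded pseudoconvex domain with smooth
boundary and let `r` be a smooth defining function.  If `Ω` is of finite D'Angelo type, then `Ω` is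
of finite type in the sense of Kohn: at every boundary point one of Kohn's ideals `I_k` of
subelliptic multipliers contains `1`. -/
theorem result : ∀ (n : ℕ) (Ω : Set (Cn n)) (r : Cn n → ℝ), SmoothDefining Ω r →
    (∀ x ∈ frontier Ω, LeviNonneg r x) → (∀ x ∈ frontier Ω, FiniteDAngeloType r x) →
    ∀ x ∈ frontier Ω, FiniteKohnType r x :=
  fun _ Ω r h1 h2 h3 => kohn_global Ω r h1 h2 h3

end Pool.Agent.Results.MP_80f671_an.KohnType
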